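import Mathlib
import Pool.Agent.V5helper35.CA.Stm1

/-!
# Project CA, job CHU1: Chevalley's theorem on units
-/

set_option autoImplicit false

namespace Pool.Agent.V5helper16.CA

open NumberField Pool.Agent.V5helper35.CA

/-- no primitive `l ^ (v + 1)`-th root of unity for large `v` -/
theorem exists_v (K : Type) [Field K] [NumberField K] (l : ℕ) (hl : l.Prime) :
    ∃ v : ℕ, ∀ ζ : K, ¬ IsPrimitiveRoot ζ (l ^ (v + 1)) := by
  refine ⟨Units.torsionOrder K, fun ζ hζ => ?_⟩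
  have : NeZero (l ^ (Units.torsionOrder K + 1)) := ⟨pow_ne_zero _ hl.ne_zero⟩
  have h1 := NumberField.Units.dvd_torsionOrder_of_isPrimitiveRoot hζ
  have h2 := Nat.le_of_dvd (Units.torsionOrder_pos K) h1
  have h3 : Units.torsionOrder K + 1 < l ^ (Units.torsionOrder K + 1) :=
    Nat.lt_pow_self hl.one_lt
  omega

theorem finite_quot (K : Type) [Field K] [NumberField K] (q : ℕ) (hq : 0 < q) :
    Finite ((𝓞 K)ˣ ⧸ (powMonoidHom q : (𝓞 K)ˣ →* (𝓞 K)ˣ).range) := by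
  have : Group.FG (𝓞 K)ˣ := Group.fg_iff_monoid_fg.mpr inferInstance
  have : Group.FG ((𝓞 K)ˣ ⧸ (powMonoidHom q : (𝓞 K)ˣ →* (𝓞 K)ˣ).range) :=
    QuotientGroup.fg _
  apply CommGroup.finite_of_fg_isMulTorsion
  intro x
  induction x using QuotientGroup.induction_on with
  | H x =>
    rw [isOfFinOrder_iff_pow_eq_one]
    refine ⟨q, hq, ?_⟩
    rw [← QuotientGroup.mk_pow, QuotientGroup.eq_one_iff]
    exact ⟨x, rfl⟩

/-- step (1) -/
theorem step1 (hKUM : S_KUM) (K : Type) [Field K] [NumberField K] (l e : ℕ) (hl : l.Prime) :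
    ∃ N : ℕ, 0 < N ∧ ∀ x : (𝓞 K)ˣ, (N : 𝓞 K) ∣ (x : 𝓞 K) - 1 →
      ∃ t u : (𝓞 K)ˣ, IsOfFinOrder t ∧ x = t * u ^ (l ^ e) := by
  classical
  obtain ⟨v, hv⟩ := exists_v K l hl
  set q' := l ^ (e + v) with hq'
  have hq'0 : 0 < q' := pow_pos hl.pos _
  have := finite_quot K q' hq'0
  have key : ∀ c : (𝓞 K)ˣ ⧸ (powMonoidHom q' : (𝓞 K)ˣ →* (𝓞 K)ˣ).range,
      ∃ n : ℕ, 0 < n ∧ ∀ x : (𝓞 K)ˣ, (QuotientGroup.mk x : (𝓞 K)ˣ ⧸ _) = c →
        (n : 𝓞 K) ∣ (x : 𝓞 K) - 1 → ∃ t u : (𝓞 K)ˣ, IsOfFinOrder t ∧ x = t * u ^ (l ^ e) := by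
    intro c
    induction c using QuotientGroup.induction_on with
    | H y =>
      by_cases h : ∃ t u : (𝓞 K)ˣ, IsOfFinOrder t ∧ y = t * u ^ (l ^ e)
      · obtain ⟨t, u, ht, hy⟩ := h
        refine ⟨1, one_pos, fun x hx _ => ?_⟩
        rw [QuotientGroup.eq] at hx
        obtain ⟨w, hw⟩ := hx
        have hw' : w ^ q' = x⁻¹ * y := hw
        refine ⟨t, u * (w⁻¹) ^ (l ^ v), ht, ?_⟩
        have h1 : x = y * (w ^ q')⁻¹ := by
          rw [hw']; group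
        rw [h1, hy, mul_pow, ← pow_mul, ← pow_add, Nat.add_comm v e, inv_pow, mul_assoc]
      · have h2 := mt (hKUM K l e v hl hv y) h
        push Not at h2
        obtain ⟨P, hP, hx⟩ := h2
        have hP0 : P ≠ ⊥ := (P.bot_lt_of_maximal (RingOfIntegers.not_isField K)).ne'
        refine ⟨Ideal.absNorm P, Nat.pos_of_ne_zero ?_, fun x hxy hdvd => ?_⟩
        · rw [Ne, Ideal.absNorm_eq_zero_iff]
          exact hP0
        · exfalso
          rw [QuotientGroup.eq] at hxy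
          obtain ⟨w, hw⟩ := hxy
          have hw' : w ^ q' = x⁻¹ * y := hw
          apply hx (w : 𝓞 K)
          have h1 : y = x * w ^ q' := by
            rw [hw']; group
          have h3 : (y : 𝓞 K) - (w : 𝓞 K) ^ q' = ((x : 𝓞 K) - 1) * (w : 𝓞 K) ^ q' := by
            rw [h1]; push_cast; ring
          rw [h3]
          apply Ideal.mul_mem_right
          exact P.mem_of_dvd hdvd (Ideal.absNorm_mem P)
  choose n hn0 hn using key
  have := Fintype.ofFinite ((𝓞 K)ˣ ⧸ (powMonoidHom q' : (𝓞 K)ˣ →* (𝓞 K)ˣ).range)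
  refine ⟨∏ c, n c, Finset.prod_pos (fun c _ => hn0 c), fun x hx => ?_⟩
  refine hn (QuotientGroup.mk x) x rfl (dvd_trans ?_ hx)
  exact_mod_cast (Nat.cast_dvd_cast (Finset.dvd_prod_of_mem n (Finset.mem_univ _)) :
    ((n (QuotientGroup.mk x) : ℕ) : 𝓞 K) ∣ ((∏ c, n c : ℕ) : 𝓞 K))

/-- step (2) -/
theorem step2 (hKUM : S_KUM) (K : Type) [Field K] [NumberField K] (m : ℕ) (hm : 0 < m) :
    ∃ N : ℕ, 0 < N ∧ ∀ x : (𝓞 K)ˣ, (N : 𝓞 K) ∣ (x : 𝓞 K) - 1 →
      ∃ t u : (𝓞 K)ˣ, IsOfFinOrder t ∧ x = t * u ^ m := by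
  induction m using Nat.recOnPosPrimePosCoprime with
  | prime_pow p n hp hn => exact step1 hKUM K p n hp
  | zero => exact absurd hm (lt_irrefl 0)
  | one => exact ⟨1, one_pos, fun x _ => ⟨1, x, IsOfFinOrder.one, by simp⟩⟩
  | coprime a b ha hb hab iha ihb =>
    obtain ⟨N1, hN1, h1⟩ := iha (by omega)
    obtain ⟨N2, hN2, h2⟩ := ihb (by omega)
    refine ⟨N1 * N2, Nat.mul_pos hN1 hN2, fun x hx => ?_⟩
    push_cast at hx
    obtain ⟨t1, u1, ht1, e1⟩ := h1 x (dvd_trans (Dvd.intro _ rfl) hx)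
    obtain ⟨t2, u2, ht2, e2⟩ := h2 x (dvd_trans (Dvd.intro_left _ rfl) hx)
    have hbez : (a : ℤ) * a.gcdA b + b * a.gcdB b = 1 := by
      have := Nat.gcd_eq_gcd_ab a b
      rw [hab] at this
      exact_mod_cast this.symm
    set r := a.gcdA b
    set s := a.gcdB b
    refine ⟨t2 ^ (a * r : ℤ) * t1 ^ (b * s : ℤ), u2 ^ r * u1 ^ s, ?_, ?_⟩
    · exact ((ht2.zpow)).mul (ht1.zpow)
    · have e3 : x = (x ^ (a * r : ℤ)) * (x ^ (b * s : ℤ)) := by
        rw [← zpow_add, hbez, zpow_one]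
      have e4 : x ^ (a * r : ℤ) = t2 ^ (a * r : ℤ) * (u2 ^ r) ^ (a * b) := by
        rw [e2, mul_zpow]
        congr 1
        rw [← zpow_natCast u2 b, ← zpow_mul, ← zpow_natCast (u2 ^ r), ← zpow_mul]
        congr 1
        push_cast; ring
      have e5 : x ^ (b * s : ℤ) = t1 ^ (b * s : ℤ) * (u1 ^ s) ^ (a * b) := by
        rw [e1, mul_zpow]
        congr 1
        rw [← zpow_natCast u1 a, ← zpow_mul, ← zpow_natCast (u1 ^ s), ← zpow_mul]
        congr 1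
        push_cast; ring
      rw [e3, e4, e5, mul_pow]
      exact mul_mul_mul_comm _ _ _ _

/-- **JOB CHU1** -/
theorem t_CHU1 : S_CHU1 := by
  intro hKUM K _ _ m hm
  classical
  set N₀ := Units.torsionOrder K + 1 with hN₀
  have hN₀pos : 0 < N₀ := by omega
  set I : Ideal (𝓞 K) := Ideal.span {(N₀ : 𝓞 K)} with hI
  have hnorm : Ideal.absNorm I = N₀ ^ Module.finrank ℤ (𝓞 K) := Ideal.absNorm_span_natCast N₀
  have hrank : Module.finrank ℤ (𝓞 K) ≠ 0 := by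
    rw [RingOfIntegers.rank]
    exact Module.finrank_pos.ne'
  have hI1 : Ideal.absNorm I ≠ 1 := by
    rw [hnorm]
    have := Units.torsionOrder_pos K
    exact (Nat.one_lt_pow hrank (by omega)).ne'
  have hI2 : (Ideal.absNorm I).Coprime (Units.torsionOrder K) := by
    rw [hnorm]
    apply Nat.Coprime.pow_left
    rw [hN₀]
    simp
  have hinj := Ideal.torsionMapQuot_injective hI1 hI2
  have hI0 : I ≠ ⊥ := by
    rw [hI, Ne, Ideal.span_singleton_eq_bot]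
    exact_mod_cast hN₀pos.ne'
  have : Finite (𝓞 K ⧸ I) := Ideal.finiteQuotientOfFreeOfNeBot I hI0
  have : Finite (𝓞 K ⧸ I)ˣ := inferInstance
  set k := Nat.card (𝓞 K ⧸ I)ˣ with hk
  have hkpos : 0 < k := Nat.card_pos
  let f : (𝓞 K)ˣ →* (𝓞 K ⧸ I)ˣ := Units.map (Ideal.Quotient.mk I).toMonoidHom
  have hf : ∀ x : (𝓞 K)ˣ, f x = 1 ↔ (N₀ : 𝓞 K) ∣ (x : 𝓞 K) - 1 := by
    intro x
    rw [Units.ext_iff]
    change Ideal.Quotient.mk I (x : 𝓞 K) = 1 ↔ _
    rw [← map_one (Ideal.Quotient.mk I), Ideal.Quotient.eq, hI, Ideal.mem_span_singleton]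
  obtain ⟨N₁, hN₁, h1⟩ := step2 hKUM K (m * k) (Nat.mul_pos hm hkpos)
  refine ⟨N₀ * N₁, Nat.mul_pos hN₀pos hN₁, fun x hx => ?_⟩
  push_cast at hx
  obtain ⟨t, u, ht, e⟩ := h1 x (dvd_trans (Dvd.intro_left _ rfl) hx)
  have hx0 : f x = 1 := (hf x).mpr (dvd_trans (Dvd.intro _ rfl) hx)
  have ht1 : f t = 1 := by
    rw [e, map_mul, map_pow, pow_mul, hk, pow_card_eq_one', mul_one] at hx0
    exact hx0
  have htm : t ∈ Units.torsion K := (CommGroup.mem_torsion _).mpr ht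
  have ht2 : (⟨t, htm⟩ : Units.torsion K) = 1 := by
    apply hinj
    rw [map_one]
    exact ht1
  have ht3 : t = 1 := congrArg Subtype.val ht2
  refine ⟨u ^ k, ?_⟩
  rw [e, ht3, one_mul, ← pow_mul, Nat.mul_comm]

end Pool.Agent.V5helper16.CA
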